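import Pool.Agent.H958.RO.Stm

set_option autoImplicit false

namespace Pool.Agent.H947.RO.Par

open Finset
open Pool.Agent.H958.RO
open scoped Classical

theorem main : Pool.Agent.H958.RO.S_PAR := by
  intro n E A B _ hBA hreach
  set G : SimpleGraph (Fin n) := GG (res E A) with hG
  let P : Fin n → ℕ → Prop := fun v k => ∃ b ∈ B, ∃ p : G.Walk v b, p.length = k
  let dd : Fin n → ℕ := fun v => if h : ∃ k, P v k then Nat.find h else 0
  have hstep : ∀ v ∈ A \ B, ∃ e ∈ res E A, ∃ u, (e = (v, u) ∨ e = (u, v)) ∧ dd u < dd v := by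
    intro v hv
    rw [mem_sdiff] at hv
    have hex : ∃ k, P v k := by
      obtain ⟨b, hb, hr⟩ := hreach v hv.1
      obtain ⟨p⟩ := hr
      exact ⟨p.length, b, hb, p, rfl⟩
    have hdv : dd v = Nat.find hex := dif_pos hex
    obtain ⟨b, hb, p, hp⟩ := Nat.find_spec hex
    cases p with
    | nil => exact absurd hb hv.2
    | @cons _ u _ hadj q =>
      have hPu : P u q.length := ⟨b, hb, q, rfl⟩
      have hexu : ∃ k, P u k := ⟨_, hPu⟩
      have hdu : dd u = Nat.find hexu := dif_pos hexu
      have h1 : dd u ≤ q.length := by rw [hdu]; exact Nat.find_min' hexu hPu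
      have h2 : dd v = q.length + 1 := by rw [hdv, ← hp]; rfl
      rcases hadj.2 with h | h
      · exact ⟨(v, u), h, u, Or.inl rfl, by omega⟩
      · exact ⟨(u, v), h, u, Or.inr rfl, by omega⟩
  choose! e he u hu using hstep
  have hinj : Set.InjOn e (A \ B : Finset (Fin n)) := by
    intro v hv w hw hvw
    by_contra hne
    obtain ⟨hv1, hv2⟩ := hu v (by exact_mod_cast hv)
    obtain ⟨hw1, hw2⟩ := hu w (by exact_mod_cast hw)
    rw [hvw] at hv1
    rcases hv1 with hv1 | hv1 <;> rcases hw1 with hw1 | hw1 <;> rw [hv1] at hw1 <;>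
      simp only [Prod.mk.injEq] at hw1 <;> obtain ⟨h1, h2⟩ := hw1
    · exact hne h1
    · rw [h2] at hv2; rw [← h1] at hw2; omega
    · rw [h1] at hv2; rw [← h2] at hw2; omega
    · exact hne h2
  have h1 : (A \ B).card ≤ (res E A).card :=
    Finset.card_le_card_of_injOn e (fun v hv => by exact_mod_cast he v (by exact_mod_cast hv)) hinj
  have h2 : A.card ≤ (A \ B).card + B.card := by
    have := Finset.card_sdiff_add_card A B
    have h3 : A.card ≤ (A ∪ B).card := Finset.card_le_card Finset.subset_union_left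
    omega
  omega

end Pool.Agent.H947.RO.Par
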